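import Pool.Agent.W896.FD.Tri

/-!
# Triangle detection needs many reads or much memory

We consider Boolean circuits with AND gates of fan-in two, OR gates of any fan-in and negations at the inputs, whose inputs are the
adjacency bits of a simple graph with `n` vertices. Such a circuit accepts if and only if it has a proof tree all of whose leaves are
true literals; the formal degree in an input bit is the largest number of leaves with this bit, that is, the number of times this bit
is read. Nondeterministic, in particular deterministic, branching programs are such circuits (the logarithm of the size is the memory,
and a bit which is read at most `k` times on every path has degree at most `k`), and so are programs with a stack; a proof tree of a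
circuit may even read any part of the input again and again in its branches.

The circuits have to recognise the graphs WITHOUT a triangle. (The graphs with a triangle are recognised by a disjunction of small
conjunctions, each of which reads three bits once.) Checking all triples is a circuit of polynomial size and formal degree `n - 2` in
each bit. We show that the size is `2 ^ Ω (n)` if the degrees sum up to `O (n ^ 2)`. So an algorithm of this kind with a memory of
`o (n)` bits must read the adjacency bits more than a constant number of times on average, and with a memory of `O (log n)` bits it
must read them `Ω (log n)` times: its running time is not linear in the size of the input. The statement holds for each vertex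
separately: it is enough that the degrees in the bits of the pairs which contain one vertex `u` sum up to at most `k n`, while all
other bits may be read as often as one likes; and then it remains true for circuits with one-sided randomness, even if the
probability of acceptance is only `2 ^ (- c n)`.
-/

set_option autoImplicit false

namespace Pool.Agent.Results.MP_ad5e8e_lc.FormalDegree

open Pool.Agent.W896.RK Pool.Agent.W896.FD Pool.Agent.W896.FD.Tri

/-- `bits G e` is the adjacency bit of the pair `e` in the graph `G`.

1. Let `u` be a vertex and `U r` (`r` in a finite nonempty set) circuits none of which accepts a graph with a triangle, such that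
every graph without a triangle is accepted by at least a `2 ^ (- ⌊n / 2 ^ (60 (k + 3))⌋)` fraction of them. If in each `U r` the
formal degrees in the bits of the pairs `{u, v}` sum up to at most `k n`, then some `U r` has `g` gates with
`n ≤ 2 ^ (60 (k + 3)) (⌊log₂ g⌋ + 1)`.

2. If a circuit accepts exactly the graphs without a triangle, and its formal degrees sum up to at most `k n ^ 2`, then it has `g`
gates with `n ≤ 2 ^ (60 (2 k + 3)) (⌊log₂ g⌋ + 1)`. -/
theorem result (k n : ℕ) :
    (∀ (u : Fin n) (R : Type) [Fintype R] [Nonempty R] (U : R → Circ (Sym2 (Fin n))),
      (∀ r (G : SimpleGraph (Fin n)), (U r).Val (bits G) (U r).out → G.CliqueFree 3) →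
      (∀ G : SimpleGraph (Fin n), G.CliqueFree 3 →
        Nat.card R ≤ 2 ^ (n / 2 ^ (60 * (k + 3))) * Nat.card {r // (U r).Val (bits G) (U r).out}) →
      (∀ r, ∃ d : (U r).G → Sym2 (Fin n) → ℕ, IsDeg (U r) id d ∧ ∑ v, d (U r).out s(u, v) ≤ k * n) →
      ∃ r, n ≤ 2 ^ (60 * (k + 3)) * (Nat.log 2 (Fintype.card (U r).G) + 1)) ∧
    ∀ U : Circ (Sym2 (Fin n)), (∀ G : SimpleGraph (Fin n), U.Val (bits G) U.out ↔ G.CliqueFree 3) →
      (∃ d : U.G → Sym2 (Fin n) → ℕ, IsDeg U id d ∧ ∑ e, d U.out e ≤ k * n ^ 2) →
      n ≤ 2 ^ (60 * (2 * k + 3)) * (Nat.log 2 (Fintype.card U.G) + 1) :=
  ⟨fun u R _ _ U hU hc hd => tri_vertex k n u R U hU hc hd, fun U hU hd => tri_total k n U hU hd⟩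

end Pool.Agent.Results.MP_ad5e8e_lc.FormalDegree
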