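import Pool.Agent.H526R2.LS.Upper
import Pool.Agent.H526R2.LS.Size

set_option autoImplicit false

/-! # Locally symmetric networks for triangle detection

A network reads the entries of the adjacency matrix of a graph on the vertex set `V`. Its other gates
compute arbitrary functions of the multiset of their inputs, with values in an arbitrary set `K` and
unbounded fan-in (for instance sums, counts, minima, thresholds, or the whole multiset). It is
symmetric on a block of five vertices if every even permutation of the block (fixing all the other
vertices) extends to an automorphism of the network. So the graph may be treated in a completely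
asymmetric way as long as the names of the vertices inside the blocks do not matter.

Lower bound: a random network which detects triangles with error probability at most `ε`, all of whose
members are symmetric on the same `r` disjoint blocks, satisfies
`E [s (2 log_5 s + 1) ^ 3] ≥ (1 - 2 ε) (r - 2) ^ 3`, where `s` is the number of gates. For
`r = ⌊n / 5⌋` blocks this is `n ^ (3 - o (1))`, superlinear in the number `n ^ 2` of the entries.

Upper bound: there is a network symmetric under all permutations of the `n` vertices with at most
`n ^ 3 + n ^ 2 + 1` gates.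

In particular the fast algorithms, which multiply matrices by the algorithms of Strassen and his
successors with fewer than `n ^ (3 - δ)` operations, cannot be made symmetric on a linear number of
blocks of five vertices, not even with gates that compute arbitrary functions of multisets. -/

namespace Pool.Agent.Results.MP_ad5e8e_lc.LocalSymmetry

open Pool.Agent.H526R2.LS

open Classical in
/-- The network `N` with values in `K`, whose input gates read whether the pairs of vertices are
edges (encoded by `enc`), answers correctly whether `G` has a triangle (the output is decoded by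
`dec`). -/
def Detects {V K Gt : Type} [Fintype Gt] (N : Net (Sym2 V) K Unit Gt) (enc : Bool → K)
    (dec : K → Bool) (G : SimpleGraph V) : Prop :=
  dec (N.val (fun e => enc (decide (e ∈ G.edgeSet))) (N.out ())) = decide (¬ G.CliqueFree 3)

open Classical in
theorem result :
    (∀ (V K : Type) [Fintype V] (enc : Bool → K) (dec : K → Bool) (r : ℕ)
      (ι : Fin r × Fin 5 ↪ V) (Ω : Type) [Fintype Ω] (p : Ω → ℝ),
      (∀ ω, 0 ≤ p ω) → ∑ ω, p ω = 1 →
      ∀ (Gt : Ω → Type) [∀ ω, Fintype (Gt ω)] (N : ∀ ω, Net (Sym2 V) K Unit (Gt ω)),
      (∀ ω, ∀ (j : Fin r), ∀ σ ∈ alternatingGroup (Fin 5),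
        ∃ φ, (N ω).IsAut (sym2Perm (blockPerm ι j σ)) 1 φ) →
      ∀ ε : ℝ, 2 * ε ≤ 1 →
      (∀ G : SimpleGraph V, ∑ ω with ¬ Detects (N ω) enc dec G, p ω ≤ ε) →
      (1 - 2 * ε) * ((r - 2 : ℕ) : ℝ) ^ 3 ≤
        ∑ ω, p ω * ((Fintype.card (Gt ω) : ℝ) *
          ((2 * Nat.log 5 (Fintype.card (Gt ω)) + 1 : ℕ) : ℝ) ^ 3)) ∧
    (∀ (V : Type) [Fintype V], ∃ (Gt : Type) (_ : Fintype Gt) (N : Net (Sym2 V) Bool Unit Gt),
      (∀ π : Equiv.Perm V, ∃ φ, N.IsAut (sym2Perm π) 1 φ) ∧
      (∀ G : SimpleGraph V, Detects N id id G) ∧
      Fintype.card Gt ≤ Fintype.card V ^ 3 + Fintype.card V ^ 2 + 1) := by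
  constructor
  · intro V K _ enc dec r ι Ω _ p hp hp1 Gt _ N hsym ε hε herr
    have h := clique_lower (k := 3) le_rfl (B := Fin 5) (by rw [Fintype.card_fin]; norm_num) enc dec
      ι p hp hp1 Gt N hsym ε (fun G => by
        refine le_trans (le_of_eq (Finset.sum_congr ?_ fun _ _ => rfl)) (herr G)
        ext ω
        simp only [Finset.mem_filter, Finset.mem_univ, true_and]
        rfl)
    have h2 := choose_to_pow p hp (fun ω => Fintype.card (Gt ω))
      (fun ω => 2 * Nat.log 5 (Fintype.card (Gt ω)) + 1) 3 r (1 - 2 * ε) (by linarith) h
    have e : r + 1 - 3 = r - 2 := by omega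
    rwa [e] at h2
  · intro V _
    exact ⟨CG V 3, inferInstance, cliqueNet V 3, fun π => ⟨_, cliqueNet_sym V 3 π⟩,
      fun G => cliqueNet_ok V 3 G, card_CG V 3⟩

end Pool.Agent.Results.MP_ad5e8e_lc.LocalSymmetry
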