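import Pool.Agent.Q329.UX.Gen
import Pool.Agent.H559R9.Tri

/-!
# Triangle detection with unreliable negations needs `m ^ (3 / 2 - o(1))` gates

A graph with `n` vertices is given by bits: for all pairs `e` of vertices and all tags `j < K`, the
bit of the position `(e, j)` tells whether there is the edge `e` with the tag `j` (the name of the
edge). Only graphs in which each edge has one tag are considered; the tag has no meaning.

The model: randomised circuits of AND and OR gates of fan-in two whose inputs are these bits and
their negations (all circuits with AND, OR and NOT gates can be brought into this form by doubling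
their size). There is no bound on the depth. A randomised circuit is a finite nonempty family of
circuits from which one is chosen uniformly at random.

Faults: each negated input (the information that there is no edge `e` with the tag `j`) is stuck at
`0`, independently with probability `1 / D`. The other inputs are reliable.

Result: let `θ < 3 / 2`. For all large `m`, all `n` with `m ≤ n ^ 2`, all `D` and all
`K ≥ D (2 log n + 4)` the following holds. If a randomised circuit accepts the graphs with at most `m`
edges that have a triangle with probability at least `4 / 5` under faults, and the graphs with at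
most `m` edges that have no triangle with probability at most `1 / 4` without faults, then one of its
circuits has at least `m ^ θ` gates.

So the bound is superlinear in the number of edges, and the algorithms that are faster than
`m ^ (3 / 2)`, which use fast matrix multiplication, must rely on all negated inputs to be correct,
although faults are rare (`D` may be large) and the circuit may repeat and combine its computations in
any way.

The proof: the instance is hidden at random tags; the tags which other edges would get are as good
as random faulty inputs (`Pool/Agent/Y630`), so all negated inputs that depend on the instance can be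
replaced by `0`. For circuits without negations the average-case bound `tri_sparse` of the starting
development `Pool/Agent/H559R9` is used.
-/

set_option autoImplicit false

namespace Pool.Agent.Results.MP_ad5e8e_lc.UnreliableNegations

open Pool.Agent.Q329.UX Finset Filter Pool.Agent.H520R2.NM

/-- The positions: the edge `e` with the tag `j < K`. -/
abbrev Position (n K : ℕ) : Type := Sym2 (Fin n) × Fin K

open Classical in
/-- The edges which are given by the bits `z` (pairs of equal vertices do not matter). -/
noncomputable def edges {n K : ℕ} (z : Position n K → Bool) : Finset (Sym2 (Fin n)) :=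
  univ.filter fun e => ∃ j, z (e, j) = true

/-- There is a triangle. -/
def HasTriangle {n K : ℕ} (z : Position n K → Bool) : Prop :=
  ¬ (SimpleGraph.fromEdgeSet (edges z : Set (Sym2 (Fin n)))).CliqueFree 3

/-- There are at most `m` edges, and each edge has at most one tag. -/
def Input {n K : ℕ} (m : ℕ) (z : Position n K → Bool) : Prop :=
  (edges z).card ≤ m ∧ ∀ e j j', z (e, j) = true → z (e, j') = true → j = j'

/-- A circuit of AND and OR gates whose inputs are the bits of the positions `e` in `E` and their
negations: `(e, true)` stands for the bit of `e` and `(e, false)` for its negation. (`Circuit` and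
`Wire` are defined in `Pool/Agent/H520R2/NMDefs.lean`; there are no arbitrary gates.) -/
structure AndOrCircuit (E : Type) where
  N : ℕ
  C : Circuit (E × Bool) N
  out : Wire (E × Bool) N
  pure : C.fanins = []

/-- The circuit accepts the values `y` of the literals. -/
def AndOrCircuit.Accepts {E : Type} (C : AndOrCircuit E) (y : E × Bool → Bool) : Prop :=
  C.out.eval y (C.C.vals y) = true

/-- The family of circuits `C` decides whether a graph with at most `m` edges has a triangle, in the
presence of faults with probability `1 / D` (`faultyP`, `accP`: `Pool/Agent/Q329/UX/Gen.lean`). -/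
def Tolerates {n K : ℕ} {R : Type} (C : R → AndOrCircuit (Position n K)) (D m : ℕ) : Prop :=
  (∀ z, Input m z → HasTriangle z → 4 / 5 ≤ faultyP (fun ρ => (C ρ).Accepts) D z) ∧
    ∀ z, Input m z → ¬ HasTriangle z → accP (fun ρ => (C ρ).Accepts) z ≤ 1 / 4

/-- Let `θ < 3 / 2`. For all large `m`, all `n` with `m ≤ n ^ 2`, `D ≥ 1` and `K ≥ D (2 log n + 4)`: if
a finite nonempty family of circuits of AND and OR gates on literals decides triangle detection for
the graphs with `n` vertices and at most `m` edges in the presence of faults with probability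
`1 / D`, then one of the circuits has at least `m ^ θ` gates. -/
theorem result (θ : ℝ) (hθ : θ < 3 / 2) : ∀ᶠ m : ℕ in atTop, ∀ n : ℕ, m ≤ n ^ 2 →
    ∀ D : ℕ, 1 ≤ D → ∀ K : ℕ, D * (2 * Real.log n + 4) ≤ K →
      ∀ (R : Type) [Finite R] [Nonempty R] (C : R → AndOrCircuit (Position n K)),
        Tolerates C D m → ∃ ρ, (m : ℝ) ^ θ ≤ (C ρ).C.size := by
  classical
  obtain ⟨θ', hθ'⟩ : ∃ θ' : ℝ, θ' = max θ 1 := ⟨_, rfl⟩
  have h0 : 0 < θ' := lt_of_lt_of_le one_pos (by rw [hθ']; exact le_max_right _ _)
  have h1 : 2 / 3 * θ' + 0 < 1 := by
    have : θ' < 3 / 2 := by rw [hθ']; exact max_lt hθ (by norm_num)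
    linarith
  obtain ⟨α, hα, hmain⟩ := Pool.Agent.H559R9.tri_sparse 0 θ' le_rfl h0 h1
  have hsmall : ∀ᶠ m : ℕ in atTop, (m : ℝ) ^ (-α) < 1 / 4 :=
    ((tendsto_rpow_neg_atTop hα).comp tendsto_natCast_atTop_atTop).eventually
      (gt_mem_nhds (show (0 : ℝ) < 1 / 4 by norm_num))
  filter_upwards [hmain, hsmall, eventually_ge_atTop 1] with m hm hms hm1
  intro n hmn D hD K hK R _ _ C hC
  let _ : Fintype R := Fintype.ofFinite R
  obtain ⟨⟨Λ, iΛ, nΛ, x, hx, hmx⟩, -⟩ := hm n hmn
  have hn1 : 1 ≤ n := by
    rcases Nat.eq_zero_or_pos n with h | h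
    · rw [h] at hmn
      omega
    · exact h
  have hnr : (1 : ℝ) ≤ n := by exact_mod_cast hn1
  have hmr : (1 : ℝ) ≤ m := by exact_mod_cast hm1
  have hDR : (1 : ℝ) ≤ D := by exact_mod_cast hD
  have hlog : 0 ≤ Real.log n := Real.log_nonneg hnr
  have hK0 : 0 < K := by
    have h1 : (0 : ℝ) < K := lt_of_lt_of_le (by positivity) hK
    exact_mod_cast h1
  have : NeZero K := ⟨hK0.ne'⟩
  have : NeZero n := ⟨by omega⟩
  have hcard : (Fintype.card (Sym2 (Fin n)) : ℝ) ≤ (n : ℝ) ^ 2 := by
    have h2 : Fintype.card (Sym2 (Fin n)) ≤ Fintype.card (Fin n × Fin n) :=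
      Fintype.card_le_of_surjective (fun z : Fin n × Fin n => s(z.1, z.2)) fun e => by
        induction e using Sym2.ind with
        | _ u v => exact ⟨(u, v), rfl⟩
    rw [Fintype.card_prod, Fintype.card_fin] at h2
    calc (Fintype.card (Sym2 (Fin n)) : ℝ) ≤ ((n * n : ℕ) : ℝ) := by exact_mod_cast h2
      _ = (n : ℝ) ^ 2 := by push_cast; ring
  have hbad : (Fintype.card (Sym2 (Fin n)) : ℝ) * (1 - 1 / (D : ℝ)) ^ Fintype.card (Fin K) ≤
      1 / 40 := by
    rw [Fintype.card_fin (n := K)]
    have h2 := Pool.Agent.Y630.TG.places_bad (D := D) (K := K) (n := (n : ℝ) ^ 2) (by omega)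
      (by positivity) (by rw [Real.log_pow]; push_cast; exact hK)
    have h3 : (0 : ℝ) ≤ (1 - 1 / (D : ℝ)) ^ K := by
      apply pow_nonneg
      rw [sub_nonneg, div_le_one (by linarith)]
      exact hDR
    exact (mul_le_mul_of_nonneg_right hcard h3).trans h2
  set slot : Sym2 (Fin n) × Fin K ↪ Position n K := Function.Embedding.refl _ with hslot
  have hedge : ∀ (y : Sym2 (Fin n) → Bool) (τ : Sym2 (Fin n) → Fin K),
      edges (Pool.Agent.Y630.TF.host slot (fun _ => false) τ y) =
        univ.filter (fun e => y e = true) := by
    intro y τ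
    ext e
    unfold edges
    rw [Finset.mem_filter, Finset.mem_filter]
    refine and_congr_right fun _ => ⟨?_, fun he => ⟨τ e, ?_⟩⟩
    · rintro ⟨j, hj⟩
      rw [Pool.Agent.Y630.TF.host_true] at hj
      rcases hj with hj | ⟨x', h1, h2⟩
      · exact absurd hj (by simp)
      · have h3 : x' = e := congrArg Prod.fst h2
        rwa [h3] at h1
    · rw [Pool.Agent.Y630.TF.host_true]
      exact Or.inr ⟨e, he, rfl⟩
  have htri : ∀ (y : Sym2 (Fin n) → Bool) (τ : Sym2 (Fin n) → Fin K),
      HasTriangle (Pool.Agent.Y630.TF.host slot (fun _ => false) τ y) ↔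
        ¬ (SimpleGraph.fromEdgeSet {e | y e = true}).CliqueFree 3 := by
    intro y τ
    unfold HasTriangle
    rw [hedge]
    have h2 : ((univ.filter (fun e => y e = true) : Finset (Sym2 (Fin n))) : Set (Sym2 (Fin n))) =
        {e | y e = true} := by
      ext e
      simp
    rw [h2]
  have hin : ∀ l (τ : Sym2 (Fin n) → Fin K),
      Input m (Pool.Agent.Y630.TF.host slot (fun _ => false) τ (x l)) := by
    intro l τ
    refine ⟨?_, fun e j j' h1 h2 => ?_⟩
    · rw [hedge]
      exact hx l
    · rw [Pool.Agent.Y630.TF.host_true] at h1 h2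
      rcases h1 with h1 | ⟨x1, -, h1⟩
      · exact absurd h1 (by simp)
      rcases h2 with h2 | ⟨x2, -, h2⟩
      · exact absurd h2 (by simp)
      have e1 : x1 = e := congrArg Prod.fst h1
      have e2 : x2 = e := congrArg Prod.fst h2
      have e3 : τ x1 = j := congrArg Prod.snd h1
      have e4 : τ x2 = j' := congrArg Prod.snd h2
      rw [← e3, ← e4, e1, e2]
  have hmono : ∀ (ρ : R) (u v : Position n K × Bool → Bool), u ≤ v → (C ρ).Accepts u →
      (C ρ).Accepts v := by
    intro ρ u v huv hu
    have h2 := wire_mono (C ρ).out huv (circuit_mono (C ρ).C (C ρ).pure huv)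
    unfold AndOrCircuit.Accepts at hu ⊢
    rw [hu] at h2
    exact top_le_iff.mp h2
  obtain ⟨ω, hω⟩ := exists_right (fun ρ => (C ρ).Accepts) hmono (by omega : 0 < D) slot
    (fun _ => false) hbad x
    (fun l => ¬ (SimpleGraph.fromEdgeSet {e | x l e = true}).CliqueFree 3)
    (fun l hl τ => hC.1 _ (hin l τ) ((htri _ _).mpr hl))
    (fun l hl τ => hC.2 _ (hin l τ) (fun h => hl ((htri _ _).mp h)))
  obtain ⟨C', out', hsize, hfan, hval⟩ := exists_sub slot (fun _ => false) ω.2 (C ω.1).C
    (C ω.1).out
  refine ⟨ω.1, ?_⟩
  by_contra hcon
  push Not at hcon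
  have h2 := hmx (C ω.1).N C' out' (by
    rw [hfan, (C ω.1).pure]
    simp) (by
    rw [hfan, (C ω.1).pure, hsize]
    simp only [List.sum_nil, add_zero]
    refine lt_of_lt_of_le hcon (Real.rpow_le_rpow_of_exponent_le hmr ?_)
    rw [hθ']
    exact le_max_left _ _)
  have hΛ : (0 : ℝ) < Fintype.card Λ := by exact_mod_cast Fintype.card_pos
  have h3 : (Nat.card {l // (C ω.1).Accepts (Pool.Agent.Y630.TF.rlit slot (fun _ => false) ω.2 (x l)) ↔
      ¬ (SimpleGraph.fromEdgeSet {e | x l e = true}).CliqueFree 3} : ℝ) =
      ((univ.filter (fun l => (out'.eval (x l) (C'.vals (x l)) = true ↔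
        ¬ (SimpleGraph.fromEdgeSet {e | x l e = true}).CliqueFree 3))).card : ℝ) := by
    rw [Nat.card_eq_fintype_card, Fintype.card_subtype]
    congr 2
    ext l
    rw [Finset.mem_filter, Finset.mem_filter]
    refine and_congr_right fun _ => ?_
    unfold AndOrCircuit.Accepts
    rw [hval]
  rw [h3, Nat.card_eq_fintype_card] at hω
  have h4 := lt_of_le_of_lt hω h2
  nlinarith

end Pool.Agent.Results.MP_ad5e8e_lc.UnreliableNegations
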