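import Mathlib
import Pool.Agent.Q330.WF.Tri

/-!
# Triangles: branching programs which test arithmetic (min, max) formulas over machine words

The input is a list of `m` pairs of elements of a set of `2 * m` vertices. Are there vertices `a`, `b`,
`c` such that the pairs `(a, b)`, `(b, c)` and `(a, c)` are listed? (If the pairs are the edges of a
simple graph, the smaller end first, this asks for a triangle; here any list is allowed.) The items of
the input are the pairs.

A formula (`Fml`) is built from constants, arbitrary integral functions of one item, and arbitrary
integral functions of `w` words of `c log₂ m` bits, where each word is an arbitrary function of one item,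
by sums, products, maxima, minima, sign tests `pos` (with the values `0`, `1`), and gates `sym` of any
fan-in whose value is an arbitrary function of the number of positive inputs; the absolute values of
all subformulas are at most `m ^ v`. It accepts if its value is positive. Its size is the number of
leaves (constants are free) plus the number of wires which lead to gates `sym`. In a branching program
(`Program`) every inner node tests whether a formula accepts; its size is the number of inner nodes
plus the sizes of all these formulas. A formula is a program with one inner node.

We show, if `m ≥ 1000`, that random branching programs of size at most `s` with error probability at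
most `1 / 3` need `m ^ 2 ≤ 2800 w (v + c w) s`, that is, quadratic size for bounded `c`, `w`, `v` (leaves
which see bounded numbers of edges completely, and machine words of `O (log m)` bits).

Proof. The list stores about `m log m` bits, for which one more edge can ask
(`Pool.Agent.TH457.Ary.Tri`). We count the functions of an item which arise when the other items are
fixed (Nechiporuk's method). Between two leaves
which see the item, the other parts of the formula act by a composition of maps `x + c`, `c x`,
`max x c`, `min x c`, and of functions of `[0 < x]`; such a composition is a clamped affine function or
a function of a threshold test, hence given by six machine words (`Pool.Agent.Y638.WF`). The method is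
that of the theorem on zero triangles `Pool.Agent.Results.MP_62fbe0_lc.WordPrograms`.
-/

set_option autoImplicit false

namespace Pool.Agent.Results.MP_ad5e8e_lc.WordPrograms

open Pool.Agent.TH697.Form (IsProb)
open Pool.Agent.TH697.Row (ApproximatesOn)
open Pool.Agent.TH457.Ary.Tri (Edge triangle)
open Pool.Agent.Y638.WF (Program)

theorem result (m c w v : ℕ) (hm : 1000 ≤ m) (hc : 1 ≤ c) (hw : 1 ≤ w) (hv : 1 ≤ v)
    (Ω : Type) [Fintype Ω] (μ : Ω → ℝ) (hμ : IsProb μ) (s : ℕ)
    (B : Ω → Program (Fin m) (fun _ => Edge (2 * m)) w (m ^ c) (m ^ v) (fun _ => True) s)
    (hB : ApproximatesOn μ (fun ω => (B ω).eval) (fun _ => True) triangle) :
    (m : ℝ) ^ 2 ≤ 2800 * w * (v + c * w) * s :=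
  Pool.Agent.Q330.WF.Tri.program_bound hm hc hw hv μ hμ s B hB

end Pool.Agent.Results.MP_ad5e8e_lc.WordPrograms
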